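import Pool.Agent.MP_0e6a9f_ag.H19.Spec

/-! A field of characteristic two with two independent derivations. -/

noncomputable section
namespace FMD
namespace Field56

open MvPolynomial TrivSqZeroExt

/-- polynomials in two variables -/
abbrev P := MvPolynomial (Fin 2) (ZMod 2)

/-- rational functions in two variables -/
abbrev K := FractionRing P

/-- the first order deformation of a polynomial in the direction `i` -/
def psi (i : Fin 2) : P →+* TrivSqZeroExt K K :=
  eval₂Hom ((inlHom K K).comp ((algebraMap P K).comp C))
    fun j => inl (algebraMap P K (X j)) + inr (if j = i then 1 else 0)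

theorem fst_psi (i : Fin 2) (f : P) : (psi i f).fst = algebraMap P K f := by
  have h : ((fstHom K K K).toRingHom.comp (psi i)) = algebraMap P K := by
    apply MvPolynomial.ringHom_ext
    · intro r
      simp [psi]
    · intro j
      by_cases h : j = i <;> simp [psi, h]
  exact congrArg (fun g : P →+* K => g f) h

theorem unit_psi (i : Fin 2) (y : nonZeroDivisors P) : IsUnit (psi i y) := by
  rw [isUnit_iff_isUnit_fst, fst_psi]
  exact IsLocalization.map_units K y

/-- the deformation on rational functions -/
def phi (i : Fin 2) : K →+* TrivSqZeroExt K K := IsLocalization.lift (unit_psi i)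

theorem fst_phi (i : Fin 2) (x : K) : (phi i x).fst = x := by
  have h : ((fstHom K K K).toRingHom.comp (phi i)) = RingHom.id K := by
    apply IsLocalization.ringHom_ext (nonZeroDivisors P)
    refine RingHom.ext fun f => ?_
    have := fst_psi i f
    simpa [phi] using this
  exact congrArg (fun g : K →+* K => g x) h

theorem exists_der (F : Type) [Field F] (φ : F →+* TrivSqZeroExt F F) (h : ∀ x, (φ x).fst = x) :
    ∃ D : Derivation ℤ F F, ∀ x, D x = (φ x).snd :=
  ⟨Derivation.mk' (AddMonoidHom.toIntLinearMap
    { toFun := fun x => (φ x).snd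
      map_zero' := by simp
      map_add' := fun x y => by simp }) fun x y => by
    show (φ (x * y)).snd = x • (φ y).snd + y • (φ x).snd
    rw [map_mul, snd_mul, h, h]
    simp [mul_comm], fun _ => rfl⟩

theorem snd_X (i j : Fin 2) : (phi i (algebraMap P K (X j))).snd = if j = i then 1 else 0 := by
  by_cases h : j = i <;> simp [phi, psi, h]

end Field56

theorem field : FieldStmt := by
  have hc : CharP Field56.K 2 :=
    charP_of_injective_algebraMap (IsFractionRing.injective Field56.P Field56.K) 2
  obtain ⟨D, hD⟩ := Field56.exists_der Field56.K (Field56.phi 0) (Field56.fst_phi 0)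
  obtain ⟨D', hD'⟩ := Field56.exists_der Field56.K (Field56.phi 1) (Field56.fst_phi 1)
  refine ⟨Field56.K, inferInstance, hc, algebraMap Field56.P _ (MvPolynomial.X 0),
    algebraMap Field56.P _ (MvPolynomial.X 1), D, D', ?_, ?_, ?_, ?_⟩
  · rw [hD, Field56.snd_X]; simp
  · rw [hD, Field56.snd_X]; simp
  · rw [hD', Field56.snd_X]; simp
  · rw [hD', Field56.snd_X]; simp

end FMD
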